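import Pool.Agent.Work.MP_c8d35c_al.GFinal

namespace Pool.Agent.Results.MP_c8d35c_al.RealHalf

open Pool.Agent.Work.MP_c8d35c_al

theorem result (n : ℕ) (hn : 2 ≤ n) :
    (∃ (Γ Δ : Subgroup (isomH n)) (g : isomH n), IsLattice Γ ∧ IsReflGroup Δ ∧ IsArithmetic Δ ∧
      Subgroup.Commensurable (Γ.map (MulAut.conj g).toMonoidHom) Δ) ↔ n ≤ 19 ∨ n = 21 :=
  final_iff n hn

end Pool.Agent.Results.MP_c8d35c_al.RealHalf
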