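import Pool.Agent.Work.MP_c8d35c_al.GUni

namespace Pool.Agent.Results.MP_c8d35c_al.Uniform

open Pool.Agent.Work.MP_c8d35c_al

theorem result (n : ℕ) (hn : 13 ≤ n) (Δ : Subgroup (isomH n)) (hR : IsReflGroup Δ)
    (hA : IsArithmetic Δ) :
    ¬∃ C : Set (isomH n), IsCompact C ∧ ∀ g : isomH n, ∃ δ ∈ Δ, δ * g ∈ C :=
  uniform_main hn hR hA

end Pool.Agent.Results.MP_c8d35c_al.Uniform
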